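import Pool.Agent.N612.BA.Main

/-!
# Minimal Boolean `(𝔪, 𝔫)`-products need not be smallest (MP_6fd33d_al, Q1)
-/

namespace Pool.Agent.Results.MP_6fd33d_al.NotSmallest

open Set Cardinal Pool.Agent.N612.BA

universe u

/-- The images of the `i t` are independent. -/
def Independent {T : Type u} {A : T → Type u} [∀ t, BooleanAlgebra (A t)]
    {B : Type u} [BooleanAlgebra B] (i : ∀ t, BoundedLatticeHom (A t) B) : Prop :=
  ∀ T' : Set T, T'.Finite → ∀ a : ∀ t, A t, (∀ t ∈ T', a t ≠ ⊥) →
    ∃ m, IsGLB ((fun t => i t (a t)) '' T') m ∧ m ≠ ⊥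

/-- The images of the `i t` are `ν`-independent. -/
def CardIndependent {T : Type u} {A : T → Type u} [∀ t, BooleanAlgebra (A t)]
    {B : Type u} [BooleanAlgebra B] (ν : Cardinal.{u})
    (i : ∀ t, BoundedLatticeHom (A t) B) : Prop :=
  ∀ T' : Set T, #T' ≤ ν → ∀ a : ∀ t, A t, (∀ t ∈ T', a t ≠ ⊥) →
    ∃ m, IsGLB ((fun t => i t (a t)) '' T') m ∧ m ≠ ⊥

/-- The pair of the family `i` and `B` is a Boolean `(κ, ν)`-product of the family `A`. -/
structure IsProductCard {T : Type u} {A : T → Type u} [∀ t, BooleanAlgebra (A t)]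
    {B : Type u} [BooleanAlgebra B] (κ ν : Cardinal.{u})
    (i : ∀ t, BoundedLatticeHom (A t) B) : Prop where
  /-- `B` is a Boolean `κ`-algebra -/
  isMAlgebra : IsMAlgebra κ B
  /-- each `i t` is a `κ`-isomorphism into `B` -/
  injective : ∀ t, Function.Injective (i t)
  isMHom : ∀ t, IsMHom κ (i t)
  /-- the images are independent and `ν`-independent -/
  indep : Independent i
  cardIndep : CardIndependent ν i
  /-- the union of the images `κ`-generates `B` -/
  generates : MGenerates κ (⋃ t, range (i t))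

/-- The `(κ, ν)`-product is minimal: the meets of at most `ν` elements of different factors are
dense. -/
structure IsMinimalCard {T : Type u} {A : T → Type u} [∀ t, BooleanAlgebra (A t)]
    {B : Type u} [BooleanAlgebra B] (κ ν : Cardinal.{u})
    (i : ∀ t, BoundedLatticeHom (A t) B) : Prop extends IsProductCard κ ν i where
  dense : ∀ b : B, b ≠ ⊥ → ∃ (T' : Set T) (a : ∀ t, A t) (m : B), #T' ≤ ν ∧
    IsGLB ((fun t => i t (a t)) '' T') m ∧ m ≠ ⊥ ∧ m ≤ b

/-- For all infinite cardinals `ν ≤ κ` and every nonempty index set `T` there is a family of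
non-degenerate Boolean algebras, for which a minimal `(κ, ν)`-product exists, and which has a
`(κ, ν)`-product that does not lie above any minimal `(κ, ν)`-product. -/
theorem result (κ ν : Cardinal.{u}) (hν : ℵ₀ ≤ ν) (hνκ : ν ≤ κ) (T : Type u) [Nonempty T] :
    ∃ (A : T → Type u) (_ : ∀ t, BooleanAlgebra (A t)), (∀ t, Nontrivial (A t)) ∧
      (∃ (M : Type u) (_ : BooleanAlgebra M) (j : ∀ t, BoundedLatticeHom (A t) M),
        IsMinimalCard κ ν j) ∧
      ∃ (B : Type u) (_ : BooleanAlgebra B) (i : ∀ t, BoundedLatticeHom (A t) B),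
        IsProductCard κ ν i ∧
        ∀ (M : Type u) (_ : BooleanAlgebra M) (j : ∀ t, BoundedLatticeHom (A t) M),
          IsMinimalCard κ ν j →
          ¬ ∃ h : BoundedLatticeHom B M, IsMHom κ h ∧ ∀ t a, j t a = h (i t a) := by
  classical
  obtain ⟨t₀⟩ := ‹Nonempty T›
  obtain ⟨A, _, hA, ⟨M, _, j, hj, hjd⟩, B, _, i, hi, hno⟩ :=
    main κ (Order.succ ν) (hν.trans hνκ) (hν.trans (Order.le_succ ν))
      (fun c hc => (Order.lt_succ_iff.1 hc).trans hνκ) T t₀
  have conv : ∀ {B : Type u} [BooleanAlgebra B] {i : T → BoundedLatticeHom A B},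
      IsProduct κ (Order.succ ν) i → IsProductCard κ ν i := by
    intro B _ i hi
    refine ⟨hi.isMAlgebra, hi.injective, hi.isMHom, ?_, ?_, hi.generates⟩
    · intro T' hT'
      exact hi.indep T' (Order.lt_succ_iff.2 ((lt_aleph0_iff_set_finite.2 hT').le.trans hν))
    · intro T' hT'
      exact hi.indep T' (Order.lt_succ_iff.2 hT')
  refine ⟨fun _ => A, fun _ => inferInstance, fun _ => hA, ⟨M, inferInstance, j, ?_⟩,
    B, inferInstance, i, conv hi, ?_⟩
  · refine ⟨conv hj, fun b hb => ?_⟩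
    obtain ⟨T', a, m, hT', hm⟩ := hjd b hb
    exact ⟨T', a, m, Order.lt_succ_iff.1 hT', hm⟩
  · intro M _ j hj
    rintro ⟨h, hh, hhj⟩
    refine hno M inferInstance j (hj.injective t₀) ?_ ?_ ⟨h, hh, fun t a => (hhj t a).symm⟩
    · intro T' hT' a ha
      exact hj.cardIndep T' (Order.lt_succ_iff.1 hT') a ha
    · intro b hb
      obtain ⟨T', a, m, hT', hm⟩ := hj.dense b hb
      exact ⟨T', a, m, Order.lt_succ_iff.2 hT', hm⟩

end Pool.Agent.Results.MP_6fd33d_al.NotSmallest
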